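import Pool.Agent.Lib.MP_7ad46c_co.G.Up
import Pool.Agent.Lib.MP_7ad46c_co.G.Low

set_option autoImplicit false

namespace Pool.Agent.Results.MP_7ad46c_co.AllOddGroups

open Pool.Agent.Lib.MP_7ad46c_co

/-- In every finite abelian group `G` of odd order `n ≥ 17` the restricted 3-critical number is at
most `f n`, with equality if and only if `n` has a prime divisor congruent to `2` modulo `3` or
`27` times the exponent of `G` does not divide `n`. -/
theorem result (G : Type) [AddCommGroup G] [Fintype G] (n : ℕ) (hG : Fintype.card G = n)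
    (hn : 17 ≤ n) (ho : Odd n) :
    (∀ A : Finset G, A.card = f n → rsum3 A = Set.univ) ∧
    (IsLeast {m : ℕ | ∀ A : Finset G, A.card = m → rsum3 A = Set.univ} (f n) ↔
      (P2 n).Nonempty ∨ ¬ 27 * AddMonoid.exponent G ∣ n) := by
  rw [← Nat.card_eq_fintype_card] at hG
  have hf := (f_lower hn ho).1
  have up : ∀ A : Finset G, A.card = f n → rsum3 A = Set.univ := fun A hA =>
    Set.eq_univ_of_forall fun g => by
      by_contra hg
      have := gbd n G hG ho A g hg
      rw [Fb_big (by omega)] at this
      omega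
  refine ⟨up, fun h => ?_, fun h => ⟨up, fun m hm => ?_⟩⟩
  · by_contra hc
    rw [not_or, not_not] at hc
    obtain ⟨k, u, hu, he⟩ := Nat.exists_eq_pow_mul_and_not_dvd
      (AddMonoid.ExponentExists.of_finite (G := G)).exponent_pos.ne' 3 (by norm_num)
    have h1 : 3 ^ k * 27 ∣ n := by
      refine Dvd.dvd.trans ?_ hc.2
      rw [mul_comm]
      exact Nat.mul_dvd_mul_left 27 (Dvd.intro u he.symm)
    have h2 := gbd_far k n G hG ho hc.1 h1 fun h3 => hu (by
      rw [he, pow_succ] at h3
      exact Nat.dvd_of_mul_dvd_mul_left (by positivity) h3)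
    have h27 : 27 ∣ n := (Dvd.intro_left _ rfl).trans h1
    have h4 := (f_typeII hc.1).2
    rw [if_pos ((show 9 ∣ 27 by norm_num).trans h27)] at h4
    have h5 : f n ≤ f n - 1 := h.2 fun A hA => Set.eq_univ_of_forall fun g => by
      by_contra hg
      have := h2 A g hg
      omega
    omega
  · by_contra hc
    obtain ⟨A, g, h1, h2⟩ := glower hG (by omega) h
    obtain ⟨B, hB, hcard⟩ := Finset.exists_subset_card_eq (s := A) (n := m) (by omega)
    have h3 : g ∈ rsum3 B := by rw [hm B hcard]; trivial
    obtain ⟨a, ha, b, hb, c, hc', h4⟩ := h3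
    exact h2 ⟨a, hB ha, b, hB hb, c, hB hc', h4⟩

end Pool.Agent.Results.MP_7ad46c_co.AllOddGroups
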