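import Pool.Agent.Lib.MP_7ad46c_co.Main
import Pool.Agent.Lib.MP_7ad46c_co.Arc

set_option autoImplicit false

namespace Pool.Agent.Results.MP_7ad46c_co.Bajnok

open Pool.Agent.Lib.MP_7ad46c_co

/-- The restricted 3-critical number of `ℤ/n` is `f n` for every `n ≥ 16`. -/
theorem result (n : ℕ) (hn : 16 ≤ n) :
    IsLeast {m : ℕ | ∀ A : Finset (ZMod n), A.card = m → rsum3 A = Set.univ} (f n) :=
  main_of_arc n hn fun m _ h17 ho hp IH A g hA hg => ARC m h17 ho hp IH A g hA hg

end Pool.Agent.Results.MP_7ad46c_co.Bajnok
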